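import Mathlib

set_option autoImplicit false

/-!
# MP_580194_an: real `ℓ_1^n` has a finite unit norm tight frame of every length `N ≥ n`

Write `N = q n + r` with `q ≥ 1` and `0 ≤ r < n`. Take `r` copies of the pair
`((1/n) (1, …, 1), (1, …, 1))`, for each `j` one copy of the pair `(e_j, e_j^* - (r/n) ∑_{k ≠ j} e_k^*)`
and `q - 1` copies of `(e_j, e_j^*)`. The sum of the corresponding rank one operators is
`(r/n) J + I - (r/n) (J - I) + (q - 1) I = (N/n) I`, where `J` is the all ones matrix.
-/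

namespace Pool.Agent.Results.MP_580194_an.AllLengths

/-- `X` has a finite unit norm tight frame of length `N`: there are `N` pairs `(x_i, f_i)` of vectors
`x_i` of `X` and continuous linear functionals `f_i` on `X` with `‖x_i‖ = ‖f_i‖ = f_i (x_i) = 1` and
`∑ f_i (v) x_i = (N / dim X) v` for every vector `v`. -/
def HasFUNTF (X : Type) [NormedAddCommGroup X] [NormedSpace ℝ X] (N : ℕ) : Prop :=
  ∃ (x : Fin N → X) (f : Fin N → (X →L[ℝ] ℝ)),
    (∀ i, ‖x i‖ = 1 ∧ ‖f i‖ = 1 ∧ f i (x i) = 1) ∧
    ∀ v : X, ∑ i, f i v • x i = ((N : ℝ) / Module.finrank ℝ X) • v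

/-- the space `ℓ_1^n`: the vectors `v` in `ℝ^n` with the norm `∑ |v_j|` -/
abbrev L1 (n : ℕ) : Type := PiLp 1 (fun _ : Fin n => ℝ)

/-- the functional with coefficients `c` -/
noncomputable def fn {n : ℕ} (c : Fin n → ℝ) : L1 n →L[ℝ] ℝ :=
  LinearMap.toContinuousLinearMap
    { toFun := fun v => ∑ j, c j * v j
      map_add' := fun v w => by simp [mul_add, Finset.sum_add_distrib]
      map_smul' := fun a v => by
        simp only [PiLp.smul_apply, smul_eq_mul, RingHom.id_apply, Finset.mul_sum]
        exact Finset.sum_congr rfl fun j _ => by ring }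

theorem fn_apply {n : ℕ} (c : Fin n → ℝ) (v : L1 n) : fn c v = ∑ j, c j * v j := rfl

theorem norm_L1 {n : ℕ} (v : L1 n) : ‖v‖ = ∑ j, |v j| := by
  rw [PiLp.norm_eq_of_L1]
  rfl

theorem norm_fn {n : ℕ} (c : Fin n → ℝ) (hc : ∀ j, |c j| ≤ 1) (x : L1 n) (hx : ‖x‖ = 1)
    (h1 : fn c x = 1) : ‖fn c‖ = 1 := by
  apply le_antisymm
  · refine ContinuousLinearMap.opNorm_le_bound _ zero_le_one fun v => ?_
    rw [one_mul, fn_apply, norm_L1, Real.norm_eq_abs]
    refine (Finset.abs_sum_le_sum_abs _ _).trans (Finset.sum_le_sum fun j _ => ?_)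
    rw [abs_mul]
    exact mul_le_of_le_one_left (abs_nonneg _) (hc j)
  · have h2 := (fn c).le_opNorm x
    rw [h1, hx, mul_one] at h2
    simpa using h2

theorem exists_index {n : ℕ} (q r : ℕ) (hn : 1 ≤ n) (hr : r < n) :
    ∃ (x : (Fin (q + 1) × Fin n) ⊕ Fin r → L1 n) (f : (Fin (q + 1) × Fin n) ⊕ Fin r → (L1 n →L[ℝ] ℝ)),
    (∀ i, ‖x i‖ = 1 ∧ ‖f i‖ = 1 ∧ f i (x i) = 1) ∧
    ∀ v : L1 n, ∑ i, f i v • x i = ((((q + 1) * n + r : ℕ) : ℝ) / n) • v := by
  classical
  have hn0 : (0 : ℝ) < n := by exact_mod_cast hn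
  have hrn : (r : ℝ) / n ≤ 1 := by
    rw [div_le_one hn0]; exact_mod_cast hr.le
  have hrn0 : (0 : ℝ) ≤ (r : ℝ) / n := by positivity
  refine ⟨Sum.elim (fun a => WithLp.toLp 1 (Pi.single a.2 1)) (fun _ => WithLp.toLp 1 (fun _ => 1 / (n : ℝ))),
    Sum.elim (fun a => if a.1 = 0 then fn (fun k => if k = a.2 then 1 else -((r : ℝ) / n))
      else fn (fun k => if k = a.2 then 1 else 0)) (fun _ => fn (fun _ => 1)), ?_, ?_⟩
  · rintro (⟨a, j⟩ | i)
    · have hx : ‖(WithLp.toLp 1 (Pi.single j (1 : ℝ)) : L1 n)‖ = 1 := by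
        rw [norm_L1]
        simp [Pi.single_apply, apply_ite abs]
      simp only [Sum.elim_inl]
      by_cases ha : a = 0
      · have h1 : fn (fun k => if k = j then 1 else -((r : ℝ) / n))
            (WithLp.toLp 1 (Pi.single j (1 : ℝ)) : L1 n) = 1 := by
          rw [fn_apply]
          simp [Pi.single_apply]
        rw [if_pos ha]
        refine ⟨hx, norm_fn _ (fun k => ?_) _ hx h1, h1⟩
        split_ifs
        · simp
        · rw [abs_neg, abs_of_nonneg hrn0]; exact hrn
      · have h1 : fn (fun k => if k = j then (1 : ℝ) else 0)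
            (WithLp.toLp 1 (Pi.single j (1 : ℝ)) : L1 n) = 1 := by
          rw [fn_apply]
          simp [Pi.single_apply]
        rw [if_neg ha]
        refine ⟨hx, norm_fn _ (fun k => ?_) _ hx h1, h1⟩
        split_ifs <;> simp
    · have hx : ‖(WithLp.toLp 1 (fun _ => 1 / (n : ℝ)) : L1 n)‖ = 1 := by
        rw [norm_L1]
        simp only [Finset.sum_const, Finset.card_univ, Fintype.card_fin, nsmul_eq_mul]
        rw [abs_of_pos (by positivity)]
        field_simp
      have h1 : fn (fun _ => (1 : ℝ)) (WithLp.toLp 1 (fun _ => 1 / (n : ℝ)) : L1 n) = 1 := by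
        rw [fn_apply]
        simp only [Finset.sum_const, Finset.card_univ, Fintype.card_fin, nsmul_eq_mul]
        field_simp
      simp only [Sum.elim_inr]
      exact ⟨hx, norm_fn _ (fun k => by simp) _ hx h1, h1⟩
  · intro v
    ext j
    rw [PiLp.smul_apply, Fintype.sum_sum_type, PiLp.add_apply]
    simp only [Sum.elim_inl, Sum.elim_inr, Finset.sum_const, Finset.card_univ, Fintype.card_fin]
    have e2 : ((r • (fn (fun _ => (1 : ℝ)) v • (WithLp.toLp 1 (fun _ => 1 / (n : ℝ)) : L1 n)) : L1 n)) j =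
        (r : ℝ) / n * ∑ k, v k := by
      rw [PiLp.smul_apply, PiLp.smul_apply, fn_apply]
      simp only [nsmul_eq_mul, smul_eq_mul, one_mul]
      ring
    rw [e2]
    have e1 : (∑ a : Fin (q + 1) × Fin n, ((if a.1 = 0 then fn (fun k => if k = a.2 then 1 else -((r : ℝ) / n))
        else fn (fun k => if k = a.2 then 1 else 0)) v) • (WithLp.toLp 1 (Pi.single a.2 (1 : ℝ)) : L1 n)) j =
        (q : ℝ) * v j + (v j - (r : ℝ) / n * (∑ k, v k - v j)) := by
      have h3 : (∑ a : Fin (q + 1) × Fin n, ((if a.1 = 0 then fn (fun k => if k = a.2 then 1 else -((r : ℝ) / n))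
        else fn (fun k => if k = a.2 then 1 else 0)) v) • (WithLp.toLp 1 (Pi.single a.2 (1 : ℝ)) : L1 n)) j =
        ∑ a : Fin (q + 1) × Fin n, ((if a.1 = 0 then fn (fun k => if k = a.2 then 1 else -((r : ℝ) / n))
        else fn (fun k => if k = a.2 then 1 else 0)) v) * (Pi.single a.2 (1 : ℝ) : Fin n → ℝ) j := by
        rw [WithLp.ofLp_sum, Finset.sum_apply]
        rfl
      rw [h3, Fintype.sum_prod_type]
      have h4 : ∀ a : Fin (q + 1), ∑ y : Fin n, ((if a = 0 then fn (fun k => if k = y then 1 else -((r : ℝ) / n))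
        else fn (fun k => if k = y then 1 else 0)) v) * (Pi.single y (1 : ℝ) : Fin n → ℝ) j =
          if a = 0 then v j - (r : ℝ) / n * (∑ k, v k - v j) else v j := by
        intro a
        rw [Finset.sum_eq_single j]
        · rw [Pi.single_eq_same, mul_one]
          split_ifs
          · rw [fn_apply]
            have h5 : ∀ k, (if k = j then (1 : ℝ) else -((r : ℝ) / n)) * v k =
                (if k = j then v j + (r : ℝ) / n * v j else 0) - (r : ℝ) / n * v k := by
              intro k
              split_ifs with h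
              · subst h; ring
              · ring
            simp only [h5]
            rw [Finset.sum_sub_distrib, ← Finset.mul_sum, Finset.sum_ite_eq' Finset.univ j]
            simp only [Finset.mem_univ, if_true]
            ring
          · rw [fn_apply]
            simp
        · intro y _ hy
          rw [Pi.single_eq_of_ne (Ne.symm hy), mul_zero]
        · intro h
          exact absurd (Finset.mem_univ j) h
      simp only [h4]
      rw [Fin.sum_univ_succ, if_pos rfl]
      have h6 : ∀ i : Fin q, (if i.succ = 0 then v j - (r : ℝ) / n * (∑ k, v k - v j) else v j) = v j :=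
        fun i => if_neg (Fin.succ_ne_zero i)
      simp only [h6, Finset.sum_const, Finset.card_univ, Fintype.card_fin, nsmul_eq_mul]
      ring
    rw [e1, smul_eq_mul]
    push_cast
    field_simp
    ring

/-- **Main result.** For every `n ≥ 1` and every `N ≥ n` the real space `ℓ_1^n` has a finite unit
norm tight frame of length `N`. -/
theorem result : ∀ n : ℕ, 1 ≤ n → ∀ N : ℕ, n ≤ N → HasFUNTF (PiLp 1 (fun _ : Fin n => ℝ)) N := by
  intro n hn N hN
  obtain ⟨q, hq⟩ : ∃ q, N / n = q + 1 :=
    Nat.exists_eq_succ_of_ne_zero (Nat.div_pos hN hn).ne'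
  have hr : N % n < n := Nat.mod_lt _ hn
  obtain ⟨x, f, h1, h2⟩ := exists_index (n := n) q (N % n) hn hr
  have hNe : N = (q + 1) * n + N % n := by
    rw [← hq, mul_comm]
    exact (Nat.div_add_mod N n).symm
  have hcard : Fintype.card ((Fin (q + 1) × Fin n) ⊕ Fin (N % n)) = N := by
    rw [Fintype.card_sum, Fintype.card_prod, Fintype.card_fin, Fintype.card_fin, Fintype.card_fin]
    exact hNe.symm
  let e := Fintype.equivFinOfCardEq hcard
  refine ⟨fun i => x (e.symm i), fun i => f (e.symm i), fun i => h1 _, fun v => ?_⟩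
  rw [Equiv.sum_comp e.symm (fun i => f i v • x i), h2 v, ← hNe]
  congr 2
  rw [(WithLp.linearEquiv 1 ℝ (Fin n → ℝ)).finrank_eq]
  simp

end Pool.Agent.Results.MP_580194_an.AllLengths
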